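import Pool.Agent.Helper63.SM.Defs

/-!
Averages over the orders (block AV of the project on random kissing configurations).
-/

set_option autoImplicit false

open Finset

namespace Pool.Agent.Helper63.SM

private theorem mem_ch17 {k : ℕ} (e : Equiv.Perm (Fin k)) (t : ℕ) (i : Fin k) :
    i ∈ ch e t ↔ ((e.symm i : Fin k) : ℕ) < t := by
  simp [ch]

private theorem ch_mul17 {k : ℕ} (e σ : Equiv.Perm (Fin k)) (t : ℕ)
    (hσ : ∀ a : Fin k, (a : ℕ) < t → σ a = a) : ch (e * σ) t = ch e t := by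
  ext i
  rw [mem_ch17, mem_ch17]
  have h1 : (e * σ).symm i = σ.symm (e.symm i) := rfl
  rw [h1]
  constructor
  · intro h
    have h2 := hσ _ h
    rw [Equiv.apply_symm_apply] at h2
    rw [← h2] at h
    exact h
  · intro h
    have h2 := hσ _ h
    have h3 : σ.symm (e.symm i) = e.symm i := by
      rw [Equiv.symm_apply_eq, h2]
    rw [h3]; exact h

/-- a sum over the complement of a beginning of the order -/
private theorem sum_compl17 {k : ℕ} (e : Equiv.Perm (Fin k)) (t : ℕ) (F : Fin k → ℝ) :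
    ∑ i ∈ (ch e t)ᶜ, F i = ∑ a ∈ univ.filter (fun a : Fin k => t ≤ (a : ℕ)), F (e a) := by
  refine (Finset.sum_bij (fun a _ => e a) ?_ ?_ ?_ ?_).symm
  · intro a ha
    rw [mem_filter] at ha
    rw [mem_compl, mem_ch17, Equiv.symm_apply_apply]
    exact not_lt.mpr ha.2
  · intro a _ b _ hab
    exact e.injective hab
  · intro i hi
    rw [mem_compl, mem_ch17] at hi
    exact ⟨e.symm i, by rw [mem_filter]; exact ⟨mem_univ _, not_lt.mp hi⟩, e.apply_symm_apply i⟩
  · intro a _; rfl

private theorem card_ge17 (k t : ℕ) (ht : t ≤ k) :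
    (univ.filter (fun a : Fin k => t ≤ (a : ℕ))).card = k - t := by
  have h1 : (univ.filter (fun a : Fin k => (a : ℕ) < t)).card = t := by
    rw [Fin.card_filter_val_lt]
    exact min_eq_right ht
  have h2 := Finset.card_filter_add_card_filter_not (s := (univ : Finset (Fin k)))
    (fun a : Fin k => (a : ℕ) < t)
  rw [h1, card_univ, Fintype.card_fin] at h2
  have h3 : (univ.filter (fun a : Fin k => ¬ (a : ℕ) < t)) =
      univ.filter (fun a : Fin k => t ≤ (a : ℕ)) := by
    ext a; simp
  rw [h3] at h2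
  omega

private theorem fac_ne17 (k : ℕ) : ((k.factorial : ℕ) : ℝ) ≠ 0 := by
  exact_mod_cast Nat.factorial_ne_zero k

theorem avg_one {k t : ℕ} (ht : t < k) (g : Finset (Fin k) → Fin k → ℝ) :
    avg (fun e : Equiv.Perm (Fin k) => ∑ i ∈ (ch e t)ᶜ, g (ch e t) i) =
      ((k : ℝ) - t) * avg (fun e : Equiv.Perm (Fin k) => g (ch e t) (e ⟨t, ht⟩)) := by
  classical
  unfold avg
  rw [mul_div_assoc']
  congr 1
  have h1 : ∑ e : Equiv.Perm (Fin k), ∑ i ∈ (ch e t)ᶜ, g (ch e t) i =
      ∑ a ∈ univ.filter (fun a : Fin k => t ≤ (a : ℕ)), ∑ e : Equiv.Perm (Fin k),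
        g (ch e t) (e a) := by
    rw [Finset.sum_comm]
    exact Finset.sum_congr rfl fun e _ => sum_compl17 e t (fun i => g (ch e t) i)
  rw [h1]
  have h2 : ∀ a ∈ univ.filter (fun a : Fin k => t ≤ (a : ℕ)),
      ∑ e : Equiv.Perm (Fin k), g (ch e t) (e a) =
        ∑ e : Equiv.Perm (Fin k), g (ch e t) (e ⟨t, ht⟩) := by
    intro a ha
    rw [mem_filter] at ha
    rw [← Equiv.sum_comp (Equiv.mulRight (Equiv.swap (⟨t, ht⟩ : Fin k) a))
      (fun e : Equiv.Perm (Fin k) => g (ch e t) (e ⟨t, ht⟩))]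
    refine Finset.sum_congr rfl fun e _ => ?_
    have h3 : ch (e * Equiv.swap (⟨t, ht⟩ : Fin k) a) t = ch e t := by
      apply ch_mul17
      intro b hb
      refine Equiv.swap_apply_of_ne_of_ne ?_ ?_
      · rintro rfl; exact lt_irrefl _ hb
      · rintro rfl; exact absurd ha.2 (not_le.mpr hb)
    simp only [Equiv.coe_mulRight]
    rw [h3, Equiv.Perm.mul_apply, Equiv.swap_apply_left]
  rw [Finset.sum_congr rfl h2, Finset.sum_const, card_ge17 k t ht.le, nsmul_eq_mul,
    Nat.cast_sub ht.le]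

theorem avg_two {k t : ℕ} (ht : t + 1 < k) (g : Finset (Fin k) → Fin k → Fin k → ℝ) :
    avg (fun e : Equiv.Perm (Fin k) => ∑ i ∈ (ch e t)ᶜ, ∑ j ∈ (ch e t)ᶜ.erase i, g (ch e t) i j) =
      ((k : ℝ) - t) * ((k : ℝ) - t - 1) *
        avg (fun e : Equiv.Perm (Fin k) => g (ch e t) (e ⟨t, by omega⟩) (e ⟨t + 1, ht⟩)) := by
  classical
  have ht' : t < k := by omega
  unfold avg
  rw [mul_div_assoc']
  congr 1
  set A : Finset (Fin k) := univ.filter (fun a : Fin k => t ≤ (a : ℕ)) with hA
  have hAc : A.card = k - t := card_ge17 k t ht'.le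
  have h0 : ∀ e : Equiv.Perm (Fin k), ∑ i ∈ (ch e t)ᶜ, ∑ j ∈ (ch e t)ᶜ.erase i, g (ch e t) i j =
      ∑ a ∈ A, ∑ b ∈ A.erase a, g (ch e t) (e a) (e b) := by
    intro e
    rw [sum_compl17 e t (fun i => ∑ j ∈ (ch e t)ᶜ.erase i, g (ch e t) i j)]
    refine Finset.sum_congr rfl fun a ha => ?_
    refine (Finset.sum_bij (fun b _ => e b) ?_ ?_ ?_ ?_).symm
    · intro b hb
      rw [mem_erase, mem_filter] at hb
      rw [mem_erase, mem_compl, mem_ch17, Equiv.symm_apply_apply]
      exact ⟨fun hh => hb.1 (e.injective hh), not_lt.mpr hb.2.2⟩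
    · intro b _ c _ hbc
      exact e.injective hbc
    · intro i hi
      rw [mem_erase, mem_compl, mem_ch17] at hi
      refine ⟨e.symm i, ?_, e.apply_symm_apply i⟩
      rw [mem_erase, mem_filter]
      refine ⟨fun hh => hi.1 ?_, mem_univ _, not_lt.mp hi.2⟩
      rw [← hh, e.apply_symm_apply]
    · intro b _; rfl
  have h1 : ∑ e : Equiv.Perm (Fin k), ∑ i ∈ (ch e t)ᶜ, ∑ j ∈ (ch e t)ᶜ.erase i, g (ch e t) i j =
      ∑ a ∈ A, ∑ b ∈ A.erase a, ∑ e : Equiv.Perm (Fin k), g (ch e t) (e a) (e b) := by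
    rw [Finset.sum_congr rfl fun e _ => h0 e, Finset.sum_comm]
    refine Finset.sum_congr rfl fun a _ => ?_
    rw [Finset.sum_comm]
  rw [h1]
  have h2 : ∀ a ∈ A, ∀ b ∈ A.erase a,
      ∑ e : Equiv.Perm (Fin k), g (ch e t) (e a) (e b) =
        ∑ e : Equiv.Perm (Fin k), g (ch e t) (e ⟨t, ht'⟩) (e ⟨t + 1, ht⟩) := by
    intro a ha b hb
    rw [hA, mem_filter] at ha
    rw [mem_erase, hA, mem_filter] at hb
    set u : Fin k := ⟨t, ht'⟩ with hu
    set w : Fin k := ⟨t + 1, ht⟩ with hw
    have huw : u ≠ w := by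
      intro hh
      have := congrArg Fin.val hh
      simp [hu, hw] at this
    set c : Fin k := Equiv.swap u a b with hc
    set σ : Equiv.Perm (Fin k) := Equiv.swap u a * Equiv.swap w c with hσ
    have hcu : c ≠ u := by
      intro hh
      rw [hc, Equiv.swap_apply_def] at hh
      split_ifs at hh with h5 h6
      · exact hb.1 (h5.trans hh.symm)
      · exact hb.1 h6
      · exact h5 hh
    have hct : t ≤ (c : ℕ) := by
      rw [hc, Equiv.swap_apply_def]
      split_ifs with h5 h6
      · exact ha.2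
      · exact le_refl _
      · exact hb.2.2
    have hσu : σ u = a := by
      rw [hσ, Equiv.Perm.mul_apply, Equiv.swap_apply_of_ne_of_ne huw hcu.symm,
        Equiv.swap_apply_left]
    have hσw : σ w = b := by
      rw [hσ, Equiv.Perm.mul_apply, Equiv.swap_apply_left, hc, Equiv.swap_apply_self]
    rw [← Equiv.sum_comp (Equiv.mulRight σ)
      (fun e : Equiv.Perm (Fin k) => g (ch e t) (e u) (e w))]
    refine Finset.sum_congr rfl fun e _ => ?_
    have h3 : ch (e * σ) t = ch e t := by
      apply ch_mul17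
      intro d hd
      have hdu : d ≠ u := by rintro rfl; exact lt_irrefl _ hd
      have hdw : d ≠ w := by
        rintro rfl
        have : t + 1 < t := hd
        omega
      have hdc : d ≠ c := by rintro rfl; exact absurd hct (not_le.mpr hd)
      have hda : d ≠ a := by rintro rfl; exact absurd ha.2 (not_le.mpr hd)
      rw [hσ, Equiv.Perm.mul_apply, Equiv.swap_apply_of_ne_of_ne hdw hdc,
        Equiv.swap_apply_of_ne_of_ne hdu hda]
    simp only [Equiv.coe_mulRight]
    have h5 : (e * σ) u = e a := by rw [← hσu]; rfl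
    have h6 : (e * σ) w = e b := by rw [← hσw]; rfl
    rw [h3, h5, h6]
  rw [Finset.sum_congr rfl fun a ha => Finset.sum_congr rfl fun b hb => h2 a ha b hb]
  have h3 : ∀ a ∈ A, (∑ _b ∈ A.erase a, ∑ e : Equiv.Perm (Fin k),
      g (ch e t) (e ⟨t, ht'⟩) (e ⟨t + 1, ht⟩)) =
      ((k : ℝ) - t - 1) * ∑ e : Equiv.Perm (Fin k), g (ch e t) (e ⟨t, ht'⟩) (e ⟨t + 1, ht⟩) := by
    intro a ha
    rw [Finset.sum_const, Finset.card_erase_of_mem ha, hAc, nsmul_eq_mul]
    congr 1
    have : k - t - 1 = k - (t + 1) := by omega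
    rw [this, Nat.cast_sub ht.le]
    push_cast; ring
  rw [Finset.sum_congr rfl h3, Finset.sum_const, hAc, nsmul_eq_mul, Nat.cast_sub ht'.le]
  ring

theorem avg_card {k a b : ℕ} (hab : a ≤ b) (hb : b ≤ k) (L : Finset (Fin k)) :
    k * avg (fun e : Equiv.Perm (Fin k) => ((ch e b \ (L ∪ ch e a)).card : ℝ)) =
      ((b : ℝ) - a) * ((k : ℝ) - L.card) := by
  classical
  rcases Nat.eq_zero_or_pos k with hk | hk
  · subst hk
    have hb0 : b = 0 := by omega
    have ha0 : a = 0 := by omega
    subst hb0; subst ha0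
    simp
  have hk' : 0 < k := hk
  set z : Fin k := ⟨0, hk'⟩ with hz
  -- the number of orders in which the place `c` is outside of `L`
  set P : Fin k → ℝ := fun c => ∑ e : Equiv.Perm (Fin k), (if e c ∈ L then (0 : ℝ) else 1) with hP
  have hPz : ∀ c, P c = P z := by
    intro c
    simp only [hP]
    rw [← Equiv.sum_comp (Equiv.mulRight (Equiv.swap z c))
      (fun e : Equiv.Perm (Fin k) => (if e z ∈ L then (0 : ℝ) else 1))]
    refine Finset.sum_congr rfl fun e _ => ?_
    have h5 : (Equiv.mulRight (Equiv.swap z c) e) z = e c := by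
      show e (Equiv.swap z c z) = e c
      rw [Equiv.swap_apply_left]
    simp only [h5]
  have hsum : ∑ c, P c = (k.factorial : ℝ) * ((k : ℝ) - L.card) := by
    simp only [hP]
    rw [Finset.sum_comm]
    have h1 : ∀ e : Equiv.Perm (Fin k), ∑ c : Fin k, (if e c ∈ L then (0 : ℝ) else 1) =
        (k : ℝ) - L.card := by
      intro e
      rw [Equiv.sum_comp e (fun i : Fin k => (if i ∈ L then (0 : ℝ) else 1))]
      have h2 : ∑ i : Fin k, (if i ∈ L then (0 : ℝ) else 1) =
          ∑ i : Fin k, ((1 : ℝ) - (if i ∈ L then (1 : ℝ) else 0)) := by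
        refine Finset.sum_congr rfl fun i _ => ?_
        split_ifs <;> norm_num
      rw [h2, Finset.sum_sub_distrib]
      simp
    rw [Finset.sum_congr rfl fun e _ => h1 e, Finset.sum_const, card_univ, Fintype.card_perm,
      Fintype.card_fin, nsmul_eq_mul]
  have hPk : (k : ℝ) * P z = (k.factorial : ℝ) * ((k : ℝ) - L.card) := by
    rw [← hsum, Finset.sum_congr rfl fun c _ => hPz c, Finset.sum_const, card_univ,
      Fintype.card_fin, nsmul_eq_mul]
  -- the cardinality as a sum
  set B : Finset (Fin k) := univ.filter (fun c : Fin k => a ≤ (c : ℕ) ∧ (c : ℕ) < b) with hB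
  have hcard : ∀ e : Equiv.Perm (Fin k), ((ch e b \ (L ∪ ch e a)).card : ℝ) =
      ∑ c ∈ B, (if e c ∈ L then (0 : ℝ) else 1) := by
    intro e
    have h1 : ch e b \ (L ∪ ch e a) = (B.filter fun c => e c ∉ L).map e.toEmbedding := by
      ext i
      rw [mem_sdiff, mem_union, mem_ch17, mem_ch17, mem_map]
      constructor
      · rintro ⟨h2, h3⟩
        rw [not_or, not_lt] at h3
        refine ⟨e.symm i, ?_, ?_⟩
        · rw [mem_filter, hB, mem_filter]
          refine ⟨⟨mem_univ _, h3.2, h2⟩, ?_⟩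
          rw [e.apply_symm_apply]; exact h3.1
        · exact e.apply_symm_apply i
      · rintro ⟨c, hc, rfl⟩
        rw [mem_filter, hB, mem_filter] at hc
        have h4 : e.symm (e.toEmbedding c) = c := e.symm_apply_apply c
        rw [h4]
        refine ⟨hc.1.2.2, ?_⟩
        rw [not_or, not_lt]
        exact ⟨hc.2, hc.1.2.1⟩
    rw [h1, card_map, Finset.card_filter, Nat.cast_sum]
    refine Finset.sum_congr rfl fun c _ => ?_
    by_cases hcL : e c ∈ L <;> simp [hcL]
  have hBc : (B.card : ℝ) = (b : ℝ) - a := by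
    have h1 : univ.filter (fun c : Fin k => (c : ℕ) < b) =
        univ.filter (fun c : Fin k => (c : ℕ) < a) ∪ B := by
      ext c
      simp only [hB, mem_filter, mem_union, mem_univ, true_and]
      omega
    have h2 : Disjoint (univ.filter (fun c : Fin k => (c : ℕ) < a)) B := by
      rw [Finset.disjoint_left]
      intro c hc hc'
      simp only [hB, mem_filter, mem_univ, true_and] at hc hc'
      omega
    have h3 := congrArg Finset.card h1
    rw [Finset.card_union_of_disjoint h2, Fin.card_filter_val_lt, Fin.card_filter_val_lt,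
      min_eq_right hb, min_eq_right (hab.trans hb)] at h3
    have h4 : (b : ℝ) = a + B.card := by exact_mod_cast h3
    linarith
  have htot : ∑ e : Equiv.Perm (Fin k), ((ch e b \ (L ∪ ch e a)).card : ℝ) =
      ((b : ℝ) - a) * P z := by
    rw [Finset.sum_congr rfl fun e _ => hcard e, Finset.sum_comm,
      Finset.sum_congr rfl fun c _ => hPz c, Finset.sum_const, nsmul_eq_mul, hBc]
  unfold avg
  rw [htot]
  have hf := fac_ne17 k
  field_simp
  calc (k : ℝ) * ((b : ℝ) - a) * P z = ((b : ℝ) - a) * ((k : ℝ) * P z) := by ring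
    _ = _ := by rw [hPk]; ring

end Pool.Agent.Helper63.SM
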