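import Pool.Agent.Helper63.SM.Up

/-!
The size of the largest kissing configuration among random candidates (block FI): a finite grid of
exponents reduces the uniform statement to the lower bound `lower_half` at one exponent.
-/

set_option autoImplicit false

open MeasureTheory Set Filter Topology

namespace Pool.Agent.Helper63.SM

open Pool.Agent.Helper63.RKS Pool.Agent.Helper49.EJ Pool.Agent.Helper47.KP

/-- the scale tends to infinity -/
private theorem ord_ge17 {d : ℕ} (hd : 1 ≤ d) : (d : ℝ) ≤ ord d := by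
  have hd1 : (1 : ℝ) ≤ d := by exact_mod_cast hd
  have hs0 : 0 < Real.sqrt 3 := Real.sqrt_pos.2 (by norm_num)
  have hs2 : Real.sqrt 3 ≤ 2 := by
    rw [Real.sqrt_le_left (by norm_num)]; norm_num
  have h1 : (1 : ℝ) ≤ (2 / Real.sqrt 3) ^ d := by
    apply one_le_pow₀
    rw [le_div_iff₀ hs0]; linarith
  have h2 : (d : ℝ) ≤ (d : ℝ) ^ (3 / 2 : ℝ) := by
    conv_lhs => rw [← Real.rpow_one (d : ℝ)]
    exact Real.rpow_le_rpow_of_exponent_le hd1 (by norm_num)
  unfold ord
  calc (d : ℝ) ≤ (d : ℝ) ^ (3 / 2 : ℝ) := h2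
    _ = (d : ℝ) ^ (3 / 2 : ℝ) * 1 := (mul_one _).symm
    _ ≤ _ := mul_le_mul_of_nonneg_left h1 (by positivity)

/-- two small probabilities -/
private theorem two_exp17 {δ a b y : ℝ} (h : 1 ≤ δ * y) (hy : 0 ≤ y)
    (ha : 2 * δ ≤ a) (hb : 2 * δ ≤ b) :
    Real.exp (-(a * y)) + Real.exp (-(b * y)) ≤ Real.exp (-(δ * y)) := by
  have ha' : 2 * δ * y ≤ a * y := mul_le_mul_of_nonneg_right ha hy
  have hb' : 2 * δ * y ≤ b * y := mul_le_mul_of_nonneg_right hb hy
  have h3 : Real.exp (-(a * y)) ≤ Real.exp (-(δ * y)) * Real.exp (-1) := by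
    rw [← Real.exp_add]
    exact Real.exp_le_exp.2 (by linarith)
  have h4 : Real.exp (-(b * y)) ≤ Real.exp (-(δ * y)) * Real.exp (-1) := by
    rw [← Real.exp_add]
    exact Real.exp_le_exp.2 (by linarith)
  have h7 : Real.exp (-1) ≤ 1 / 2 := by
    have h8 : (2 : ℝ) ≤ Real.exp 1 := by
      have := Real.add_one_le_exp (1 : ℝ)
      linarith
    rw [Real.exp_neg, one_div]
    exact inv_anti₀ (by norm_num) h8
  have h9 : 0 < Real.exp (-(δ * y)) := Real.exp_pos _
  nlinarith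

/-- the combination of a lower and an upper bound -/
private theorem largest_exact_core17 {s₁ s₂ : ℝ} (h1 : Real.logb 2 (2 / Real.sqrt 3) < s₁)
    {ε : ℝ} (hε : 0 < ε)
    (hlow : ∀ c s₁ : ℝ, 0 < c → c < gst → c < 2 * (s₁ - Real.logb 2 (2 / Real.sqrt 3)) →
      ∀ e : ℝ, 0 < e → ∃ δ : ℝ, 0 < δ ∧ ∀ᶠ d : ℕ in atTop, ∀ n : ℕ, (2 : ℝ) ^ (s₁ * d) ≤ n →
      (Measure.pi fun _ : Fin n => sig d).real
        {x | ¬ ∃ I : Finset (Fin n), Pool.Agent.Helper84.RK.Kis x I ∧
          (AA * c - e) * ord d ≤ I.card} ≤ Real.exp (-(δ * ord d)))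
    (hup : ∃ δ : ℝ, 0 < δ ∧ ∀ᶠ d : ℕ in atTop, ∀ s : ℝ, s₁ ≤ s → s ≤ s₂ →
      (Measure.pi fun _ : Fin ⌊(2 : ℝ) ^ (s * d)⌋₊ => sig d).real
        {x | (AA * top gst (s - Real.logb 2 (2 / Real.sqrt 3)) + ε) * ord d < maxBalls x} ≤
        Real.exp (-(δ * ord d))) :
    ∃ δ : ℝ, 0 < δ ∧ ∀ᶠ d : ℕ in atTop, ∀ s : ℝ, s₁ ≤ s → s ≤ s₂ →
      (Measure.pi fun _ : Fin ⌊(2 : ℝ) ^ (s * d)⌋₊ => sig d).real
        {x | ¬ ((AA * min (2 * (s - Real.logb 2 (2 / Real.sqrt 3))) gst - ε) * ord d ≤ maxBalls x ∧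
          maxBalls x ≤ (AA * top gst (s - Real.logb 2 (2 / Real.sqrt 3)) + ε) * ord d)} ≤
        Real.exp (-(δ * ord d)) := by
  set s0 := Real.logb 2 (2 / Real.sqrt 3) with hs0
  have hA := AA_pos
  have hA1 := AA_le_one
  have hg := gst_pos
  have hs0p : 0 < s0 := Pool.Agent.Helper49.EJ.W_pos
  -- the mesh
  set e : ℝ := min (ε / 8) (min ((s₁ - s0) / 4) (gst / 2)) with he
  have he0 : 0 < e := lt_min (by linarith) (lt_min (by linarith) (by linarith))
  have heε : e ≤ ε / 8 := min_le_left _ _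
  have hes : e ≤ (s₁ - s0) / 4 := (min_le_right _ _).trans (min_le_left _ _)
  have heg : e ≤ gst / 2 := (min_le_right _ _).trans (min_le_right _ _)
  -- the grid
  set t : ℕ → ℝ := fun j => s₁ + j * e with ht
  set c : ℕ → ℝ := fun j => min (2 * (t j - e - s0)) gst - e with hc
  have htj : ∀ j, s₁ ≤ t j := fun j => by
    simp only [ht]
    have : (0 : ℝ) ≤ j * e := by positivity
    linarith
  have hc0 : ∀ j, 0 < c j := fun j => by
    simp only [hc]
    have h3 := htj j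
    have : e < min (2 * (t j - e - s0)) gst := lt_min (by linarith) (by linarith)
    linarith
  have hcg : ∀ j, c j < gst := fun j => by
    simp only [hc]
    have := min_le_right (2 * (t j - e - s0)) gst
    linarith
  have hcs : ∀ j, c j < 2 * (t j - e - s0) := fun j => by
    simp only [hc]
    have := min_le_left (2 * (t j - e - s0)) gst
    linarith
  choose δ hδ hev using fun j : ℕ => hlow (c j) (t j - e) (hc0 j) (hcg j) (hcs j) e he0
  obtain ⟨δ', hδ', hup⟩ := hup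
  set J : ℕ := ⌊(s₂ - s₁) / e⌋₊ with hJ
  set m : ℝ := (Finset.range (J + 1)).inf' ⟨0, by simp⟩ δ with hm
  have hm0 : 0 < m := by
    rw [hm, Finset.lt_inf'_iff]
    exact fun j _ => hδ j
  refine ⟨min m δ' / 2, by have := lt_min hm0 hδ'; linarith, ?_⟩
  have hall : ∀ᶠ d : ℕ in atTop, ∀ j ∈ Finset.range (J + 1), ∀ n : ℕ,
      (2 : ℝ) ^ ((t j - e) * d) ≤ n → (Measure.pi fun _ : Fin n => sig d).real
        {x | ¬ ∃ I : Finset (Fin n), Pool.Agent.Helper84.RK.Kis x I ∧
          (AA * c j - e) * ord d ≤ I.card} ≤ Real.exp (-(δ j * ord d)) :=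
    (Finset.eventually_all _).2 fun j _ => hev j
  have hmin : 0 < min m δ' / 2 := by have := lt_min hm0 hδ'; linarith
  filter_upwards [hall, hup, floor_close he0,
    eventually_ge_atTop ⌈1 / (min m δ' / 2)⌉₊, eventually_ge_atTop 4]
    with d hall hup hfl h2d hd4 s hs1 hs2
  have : NeZero d := ⟨by omega⟩
  have hprob : IsProbabilityMeasure (sig d) := Pool.Agent.Helper47.KP.sig_prob (d := d)
  have ho : 0 < ord d := ord_pos (by omega)
  have hd0 : (0 : ℝ) ≤ d := Nat.cast_nonneg d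
  have h2o : 1 ≤ min m δ' / 2 * ord d := by
    have h3 : 1 / (min m δ' / 2) ≤ (d : ℝ) := (Nat.le_ceil _).trans (by exact_mod_cast h2d)
    have h4 := ord_ge17 (show 1 ≤ d by omega)
    rw [div_le_iff₀ hmin, mul_comm] at h3
    exact h3.trans (mul_le_mul_of_nonneg_left h4 hmin.le)
  -- the grid point below `s`
  set j : ℕ := ⌊(s - s₁) / e⌋₊ with hj
  have hj1 : (j : ℝ) * e ≤ s - s₁ := by
    have := Nat.floor_le (show 0 ≤ (s - s₁) / e from div_nonneg (by linarith) he0.le)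
    rwa [← hj, le_div_iff₀ he0] at this
  have hj2 : s - s₁ < (j + 1) * e := by
    have := Nat.lt_floor_add_one ((s - s₁) / e)
    rwa [← hj, div_lt_iff₀ he0] at this
  have hjJ : j ∈ Finset.range (J + 1) := by
    rw [Finset.mem_range, Nat.lt_succ_iff, hj, hJ]
    apply Nat.floor_le_floor
    exact div_le_div_of_nonneg_right (by linarith) he0.le
  have hmj : m ≤ δ j := by rw [hm]; exact Finset.inf'_le _ hjJ
  set n : ℕ := ⌊(2 : ℝ) ^ (s * d)⌋₊ with hn
  have hnj : (2 : ℝ) ^ ((t j - e) * d) ≤ n := by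
    refine le_trans ?_ (hfl s (by linarith)).1
    apply Real.rpow_le_rpow_of_exponent_le (by norm_num)
    apply mul_le_mul_of_nonneg_right _ hd0
    simp only [ht]
    linarith
  have hP1 := hall j hjJ n hnj
  have hP2 := hup s hs1 hs2
  -- comparison of the constants
  have hcmp : (AA * min (2 * (s - s0)) gst - ε) * ord d ≤ (AA * c j - e) * ord d := by
    apply mul_le_mul_of_nonneg_right _ ho.le
    have h3 : min (2 * (s - s0)) gst ≤ c j + 5 * e := by
      have h4 : s < t j + e := by simp only [ht]; linarith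
      have h5 : min (2 * (s - s0)) gst - 4 * e ≤ min (2 * (t j - e - s0)) gst := by
        apply le_min
        · have := min_le_left (2 * (s - s0)) gst
          linarith
        · have := min_le_right (2 * (s - s0)) gst
          linarith
      simp only [hc]
      linarith
    have h6 : AA * min (2 * (s - s0)) gst ≤ AA * (c j + 5 * e) :=
      mul_le_mul_of_nonneg_left h3 hA.le
    have h7 : AA * (5 * e) ≤ 1 * (5 * e) := mul_le_mul_of_nonneg_right hA1 (by linarith)
    have h8 : AA * (c j + 5 * e) = AA * c j + AA * (5 * e) := by ring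
    linarith
  have hsub : {x : Fin n → Sph d | ¬ ((AA * min (2 * (s - s0)) gst - ε) * ord d ≤ maxBalls x ∧
      maxBalls x ≤ (AA * top gst (s - s0) + ε) * ord d)} ⊆
      {x | ¬ ∃ I : Finset (Fin n), Pool.Agent.Helper84.RK.Kis x I ∧
          (AA * c j - e) * ord d ≤ I.card} ∪
      {x | (AA * top gst (s - s0) + ε) * ord d < maxBalls x} := by
    intro x hx
    by_contra hno
    rw [mem_union, not_or] at hno
    obtain ⟨h3, h4⟩ := hno
    rw [mem_ofPred_eq, not_not] at h3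
    rw [mem_ofPred_eq, not_lt] at h4
    obtain ⟨I, hI, hI2⟩ := h3
    apply hx
    refine ⟨?_, h4⟩
    have h5 : (I.card : ℝ) ≤ maxBalls x := by exact_mod_cast le_maxBalls hI
    linarith
  refine (measureReal_mono hsub (measure_ne_top _ _)).trans
    ((measureReal_union_le _ _).trans ((add_le_add hP1 hP2).trans ?_))
  apply two_exp17 h2o ho.le
  · have := min_le_left m δ'
    linarith
  · have := min_le_right m δ'
    linarith

/-- FI, with the block AS (`lower_half`) as a hypothesis -/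
theorem largest_exact_of
    (hlow : ∀ c s₁ : ℝ, 0 < c → c < gst → c < 2 * (s₁ - Real.logb 2 (2 / Real.sqrt 3)) →
      ∀ e : ℝ, 0 < e → ∃ δ : ℝ, 0 < δ ∧ ∀ᶠ d : ℕ in atTop, ∀ n : ℕ, (2 : ℝ) ^ (s₁ * d) ≤ n →
      (Measure.pi fun _ : Fin n => sig d).real
        {x | ¬ ∃ I : Finset (Fin n), Pool.Agent.Helper84.RK.Kis x I ∧
          (AA * c - e) * ord d ≤ I.card} ≤ Real.exp (-(δ * ord d)))
    (hcap : CapAsymp) {s₁ s₂ : ℝ} (h1 : Real.logb 2 (2 / Real.sqrt 3) < s₁)
    (h2 : s₂ < Real.logb 2 (2 / Real.sqrt 3) + gst) {ε : ℝ} (hε : 0 < ε) :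
    ∃ δ : ℝ, 0 < δ ∧ ∀ᶠ d : ℕ in atTop, ∀ s : ℝ, s₁ ≤ s → s ≤ s₂ →
      (Measure.pi fun _ : Fin ⌊(2 : ℝ) ^ (s * d)⌋₊ => sig d).real
        {x | ¬ ((AA * min (2 * (s - Real.logb 2 (2 / Real.sqrt 3))) gst - ε) * ord d ≤ maxBalls x ∧
          maxBalls x ≤ (AA * top gst (s - Real.logb 2 (2 / Real.sqrt 3)) + ε) * ord d)} ≤
        Real.exp (-(δ * ord d)) :=
  largest_exact_core17 h1 hε hlow (upper_sharp hcap h1 h2 hε)

end Pool.Agent.Helper63.SM
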