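import Pool.Agent.Helper63.SM.Defs

/-!
Supermodular set functions (block SU of the project on random kissing configurations).
-/

set_option autoImplicit false

namespace Pool.Agent.Helper63.SM

private theorem sup_step17 {k : ℕ} (Φ : Finset (Fin k) → ℝ)
    (h : ∀ (S : Finset (Fin k)) (i j : Fin k), i ∉ S → j ∉ S → i ≠ j →
      Φ (insert i S) + Φ (insert j S) ≤ Φ (insert i (insert j S)) + Φ S)
    (A : Finset (Fin k)) (i : Fin k) (D : Finset (Fin k)) (hi : i ∉ A ∪ D) :
    Φ (insert i A) - Φ A ≤ Φ (insert i (A ∪ D)) - Φ (A ∪ D) := by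
  classical
  induction D using Finset.induction_on with
  | empty => simp
  | insert j D hj ih =>
    rw [Finset.union_insert] at hi ⊢
    have hi' : i ∉ A ∪ D := fun hh => hi (Finset.mem_insert_of_mem hh)
    have hij : i ≠ j := fun hh => hi (hh ▸ Finset.mem_insert_self _ _)
    have h1 := ih hi'
    by_cases hjA : j ∈ A ∪ D
    · rw [Finset.insert_eq_of_mem hjA]; exact h1
    · have h2 := h (A ∪ D) i j hi' hjA hij
      linarith

theorem sup_of_pair {k : ℕ} (Φ : Finset (Fin k) → ℝ)
    (h : ∀ (S : Finset (Fin k)) (i j : Fin k), i ∉ S → j ∉ S → i ≠ j →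
      Φ (insert i S) + Φ (insert j S) ≤ Φ (insert i (insert j S)) + Φ S)
    {A B C : Finset (Fin k)} (hAB : A ⊆ B) (hC : Disjoint B C) :
    Φ (A ∪ C) - Φ A ≤ Φ (B ∪ C) - Φ B := by
  classical
  induction C using Finset.induction_on with
  | empty => simp
  | insert i C hi ih =>
    rw [Finset.disjoint_insert_right] at hC
    have h1 := ih hC.2
    have hB : i ∉ B ∪ C := by
      rw [Finset.mem_union]; rintro (hh | hh)
      · exact hC.1 hh
      · exact hi hh
    have hu : (A ∪ C) ∪ B = B ∪ C := by
      ext x; simp only [Finset.mem_union]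
      constructor
      · rintro ((hx | hx) | hx)
        · exact Or.inl (hAB hx)
        · exact Or.inr hx
        · exact Or.inl hx
      · rintro (hx | hx)
        · exact Or.inr hx
        · exact Or.inl (Or.inr hx)
    have h2 := sup_step17 Φ h (A ∪ C) i B (by rw [hu]; exact hB)
    rw [hu] at h2
    rw [Finset.union_insert, Finset.union_insert]
    linarith

theorem chain_ineq {k : ℕ} (Φ : Finset (Fin k) → ℝ)
    (h : ∀ (S : Finset (Fin k)) (i j : Fin k), i ∉ S → j ∉ S → i ≠ j →
      Φ (insert i S) + Φ (insert j S) ≤ Φ (insert i (insert j S)) + Φ S)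
    {N : ℕ} (S : ℕ → Finset (Fin k)) (hS : Monotone S) (h0 : S 0 = ∅) (hN : S N = Finset.univ)
    (L : Finset (Fin k)) :
    Φ L + ∑ i ∈ Finset.range N, (Φ (S i ∪ (S (i + 1) \ L)) - Φ (S i)) ≤ Φ Finset.univ := by
  classical
  have key : ∀ n : ℕ, Φ (L ∩ S n) +
      ∑ i ∈ Finset.range n, (Φ (S i ∪ (S (i + 1) \ L)) - Φ (S i)) ≤ Φ (S n) := by
    intro n
    induction n with
    | zero => simp [h0]
    | succ n ih =>
      rw [Finset.sum_range_succ]
      have hsub : S n ⊆ S (n + 1) := hS (Nat.le_succ n)
      have h1 := sup_of_pair Φ h (A := L ∩ S n) (B := S n) (C := L ∩ (S (n + 1) \ S n))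
        Finset.inter_subset_right (by
          rw [Finset.disjoint_left]
          intro x hx hx'
          simp only [Finset.mem_inter, Finset.mem_sdiff] at hx'
          exact hx'.2.2 hx)
      have h2 := sup_of_pair Φ h (A := S n) (B := S n ∪ (L ∩ (S (n + 1) \ S n)))
        (C := (S (n + 1) \ S n) \ L) Finset.subset_union_left (by
          rw [Finset.disjoint_left]
          intro x hx hx'
          simp only [Finset.mem_inter, Finset.mem_sdiff, Finset.mem_union] at hx hx'
          tauto)
      have e1 : L ∩ S n ∪ L ∩ (S (n + 1) \ S n) = L ∩ S (n + 1) := by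
        ext x
        have := @hsub x
        simp only [Finset.mem_inter, Finset.mem_sdiff, Finset.mem_union]
        tauto
      have e2 : S n ∪ (S (n + 1) \ S n) \ L = S n ∪ (S (n + 1) \ L) := by
        ext x
        simp only [Finset.mem_sdiff, Finset.mem_union]
        tauto
      have e3 : S n ∪ L ∩ (S (n + 1) \ S n) ∪ (S (n + 1) \ S n) \ L = S (n + 1) := by
        ext x
        have := @hsub x
        simp only [Finset.mem_inter, Finset.mem_sdiff, Finset.mem_union]
        tauto
      rw [e1] at h1
      rw [e2, e3] at h2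
      linarith
  have := key N
  rw [hN, Finset.inter_univ] at this
  exact this

end Pool.Agent.Helper63.SM
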